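import Mathlib

/-!
Integral tests for nonincreasing weights by comparison on geometric shells.
-/

set_option autoImplicit false

namespace Pool.Agent.U151.SF

open MeasureTheory Filter Topology Set
open scoped ENNReal

theorem cmp {ν1 ν2 : Measure ℝ} {b : ℕ → ℝ} (hb : Monotone b) (hb0 : 1 ≤ b 0)
    (hbt : Tendsto b atTop atTop) {K : ℝ≥0∞} (hK : K ≠ ⊤)
    (hKn : ∀ n, ν1 (Ioc (b (n + 1)) (b (n + 2))) ≤ K * ν2 (Ioc (b n) (b (n + 1))))
    (h0 : ν1 (Icc 1 (b 1)) ≠ ⊤) {w : ℝ → ℝ≥0∞} (hw : Antitone w) (hw1 : w 1 ≠ ⊤)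
    (h : ∫⁻ k in Ici 1, w k ∂ν2 ≠ ⊤) : ∫⁻ k in Ici 1, w k ∂ν1 ≠ ⊤ := by
  have hsub : Ici (1:ℝ) ⊆ Icc 1 (b 1) ∪ ⋃ n : ℕ, Ioc (b (n + 1)) (b (n + 2)) := by
    intro x hx
    rcases le_or_gt x (b 1) with h1 | h1
    · exact Or.inl ⟨hx, h1⟩
    · right
      have hex : ∃ n, x ≤ b n := (hbt.eventually_ge_atTop x).exists
      classical
      obtain ⟨n, hn⟩ : ∃ n, n = Nat.find hex := ⟨_, rfl⟩
      have h2 : x ≤ b n := hn ▸ Nat.find_spec hex
      have h3 : 1 < n := by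
        by_contra hc
        have : b n ≤ b 1 := hb (not_lt.mp hc)
        linarith
      have h4 : ¬ x ≤ b (n - 1) := Nat.find_min hex (by omega)
      rw [mem_iUnion]
      refine ⟨n - 2, ?_, ?_⟩
      · rw [show n - 2 + 1 = n - 1 by omega]
        exact not_le.mp h4
      · rw [show n - 2 + 2 = n by omega]
        exact h2
  have hstep : ∀ n, ∫⁻ k in Ioc (b (n + 1)) (b (n + 2)), w k ∂ν1 ≤
      K * ∫⁻ k in Ioc (b n) (b (n + 1)), w k ∂ν2 := by
    intro n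
    calc ∫⁻ k in Ioc (b (n + 1)) (b (n + 2)), w k ∂ν1
        ≤ ∫⁻ _k in Ioc (b (n + 1)) (b (n + 2)), w (b (n + 1)) ∂ν1 :=
          setLIntegral_mono' measurableSet_Ioc fun k hk => hw hk.1.le
      _ = w (b (n + 1)) * ν1 (Ioc (b (n + 1)) (b (n + 2))) := setLIntegral_const _ _
      _ ≤ w (b (n + 1)) * (K * ν2 (Ioc (b n) (b (n + 1)))) := by gcongr; exact hKn n
      _ = K * (w (b (n + 1)) * ν2 (Ioc (b n) (b (n + 1)))) := by ring
      _ = K * ∫⁻ _k in Ioc (b n) (b (n + 1)), w (b (n + 1)) ∂ν2 := by rw [setLIntegral_const]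
      _ ≤ K * ∫⁻ k in Ioc (b n) (b (n + 1)), w k ∂ν2 := by
          gcongr 1
          exact setLIntegral_mono' measurableSet_Ioc fun k hk => hw hk.2
  have hdis : Pairwise (Function.onFun Disjoint fun n : ℕ => Ioc (b n) (b (n + 1))) :=
    hb.pairwise_disjoint_on_Ioc_succ
  have hle : ∫⁻ k in Ici 1, w k ∂ν1 ≤ w 1 * ν1 (Icc 1 (b 1)) + K * ∫⁻ k in Ici 1, w k ∂ν2 := by
    calc ∫⁻ k in Ici 1, w k ∂ν1
        ≤ ∫⁻ k in Icc 1 (b 1) ∪ ⋃ n : ℕ, Ioc (b (n + 1)) (b (n + 2)), w k ∂ν1 :=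
          lintegral_mono_set hsub
      _ ≤ ∫⁻ k in Icc 1 (b 1), w k ∂ν1 +
          ∫⁻ k in ⋃ n : ℕ, Ioc (b (n + 1)) (b (n + 2)), w k ∂ν1 := lintegral_union_le _ _ _
      _ ≤ w 1 * ν1 (Icc 1 (b 1)) + ∑' n : ℕ, ∫⁻ k in Ioc (b (n + 1)) (b (n + 2)), w k ∂ν1 := by
          gcongr
          · calc ∫⁻ k in Icc 1 (b 1), w k ∂ν1 ≤ ∫⁻ _k in Icc 1 (b 1), w 1 ∂ν1 :=
                setLIntegral_mono' measurableSet_Icc fun k hk => hw hk.1
              _ = _ := setLIntegral_const _ _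
          · exact lintegral_iUnion_le _ _
      _ ≤ w 1 * ν1 (Icc 1 (b 1)) + ∑' n : ℕ, K * ∫⁻ k in Ioc (b n) (b (n + 1)), w k ∂ν2 := by
          gcongr
          exact hstep _
      _ = w 1 * ν1 (Icc 1 (b 1)) + K * ∫⁻ k in ⋃ n : ℕ, Ioc (b n) (b (n + 1)), w k ∂ν2 := by
          rw [ENNReal.tsum_mul_left, lintegral_iUnion (fun n => measurableSet_Ioc) hdis]
      _ ≤ _ := by
          gcongr
          apply iUnion_subset
          intro n x hx
          exact hb0.trans ((hb (Nat.zero_le n)).trans hx.1.le)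
  exact ne_top_of_le_ne_top (ENNReal.add_ne_top.mpr ⟨ENNReal.mul_ne_top hw1 h0,
    ENNReal.mul_ne_top hK h⟩) hle

/-- The reference measure. -/
noncomputable def rf : Measure ℝ := volume.withDensity fun k => ENNReal.ofReal (k ^ (-(3/4) : ℝ))

theorem rf_bounds {x M : ℝ} (hx : 0 < x) (hM : 1 ≤ M) :
    ENNReal.ofReal ((M - 1) * M ^ (-(3/4) : ℝ) * x ^ (1/4 : ℝ)) ≤ rf (Ioc x (M * x)) ∧
    rf (Ioc x (M * x)) ≤ ENNReal.ofReal ((M - 1) * x ^ (1/4 : ℝ)) := by
  have hM0 : 0 < M := by linarith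
  have hq : x ^ (1/4 : ℝ) = x ^ (-(3/4) : ℝ) * x := by
    conv_rhs => rw [← Real.rpow_one x, ← Real.rpow_mul hx.le, one_mul, ← Real.rpow_add hx]
    norm_num
  have hv : volume (Ioc x (M * x)) = ENNReal.ofReal ((M - 1) * x) := by
    rw [Real.volume_Ioc]
    congr 1
    ring
  have hr : rf (Ioc x (M * x)) = ∫⁻ k in Ioc x (M * x), ENNReal.ofReal (k ^ (-(3/4) : ℝ)) := by
    unfold rf
    rw [withDensity_apply _ measurableSet_Ioc]
  rw [hr]
  constructor
  · calc ENNReal.ofReal ((M - 1) * M ^ (-(3/4) : ℝ) * x ^ (1/4 : ℝ))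
        = ENNReal.ofReal ((M * x) ^ (-(3/4) : ℝ)) * volume (Ioc x (M * x)) := by
          rw [hv, ← ENNReal.ofReal_mul (by positivity), Real.mul_rpow hM0.le hx.le, hq]
          congr 1
          ring
      _ = ∫⁻ _k in Ioc x (M * x), ENNReal.ofReal ((M * x) ^ (-(3/4) : ℝ)) :=
          (setLIntegral_const _ _).symm
      _ ≤ _ := by
          refine setLIntegral_mono' measurableSet_Ioc fun k hk => ?_
          apply ENNReal.ofReal_le_ofReal
          exact Real.rpow_le_rpow_of_nonpos (by linarith [hk.1]) hk.2 (by norm_num)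
  · calc ∫⁻ k in Ioc x (M * x), ENNReal.ofReal (k ^ (-(3/4) : ℝ))
        ≤ ∫⁻ _k in Ioc x (M * x), ENNReal.ofReal (x ^ (-(3/4) : ℝ)) := by
          refine setLIntegral_mono' measurableSet_Ioc fun k hk => ?_
          apply ENNReal.ofReal_le_ofReal
          exact Real.rpow_le_rpow_of_nonpos hx hk.1.le (by norm_num)
      _ = ENNReal.ofReal (x ^ (-(3/4) : ℝ)) * volume (Ioc x (M * x)) := setLIntegral_const _ _
      _ = ENNReal.ofReal ((M - 1) * x ^ (1/4 : ℝ)) := by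
          rw [hv, ← ENNReal.ofReal_mul (by positivity), hq]
          congr 1
          ring

/-- The integral test for a measure on the plane whose disks of large radii `a` have mass of order
`a ^ (1/4)`. -/
theorem test {ν : Measure ℂ} {α β a0 : ℝ} (hα : 0 < α) (ha0 : 1 ≤ a0)
    (hν : ∀ a : ℝ, a0 ≤ a → ENNReal.ofReal (α * a ^ (1/4 : ℝ)) ≤ ν (Metric.closedBall 0 a) ∧
      ν (Metric.closedBall 0 a) ≤ ENNReal.ofReal (β * a ^ (1/4 : ℝ)))
    {w : ℝ → ℝ≥0∞} (hw : Antitone w) (hw1 : w 1 ≠ ⊤) :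
    ∫⁻ ξ in {ξ : ℂ | 1 ≤ ‖ξ‖}, w ‖ξ‖ ∂ν ≠ ⊤ ↔
      ∫⁻ k in Ici 1, w k * ENNReal.ofReal (k ^ (-(3/4) : ℝ)) ≠ ⊤ := by
  obtain ⟨ν1, hν1⟩ : ∃ ν1 : Measure ℝ, ν1 = Measure.map (fun ξ : ℂ => ‖ξ‖) ν := ⟨_, rfl⟩
  have hnm : Measurable fun ξ : ℂ => ‖ξ‖ := measurable_norm
  have e1 : ∫⁻ ξ in {ξ : ℂ | 1 ≤ ‖ξ‖}, w ‖ξ‖ ∂ν = ∫⁻ k in Ici 1, w k ∂ν1 := by
    rw [hν1, setLIntegral_map measurableSet_Ici hw.measurable hnm]
    rfl
  have e2 : ∫⁻ k in Ici 1, w k * ENNReal.ofReal (k ^ (-(3/4) : ℝ)) = ∫⁻ k in Ici 1, w k ∂rf := by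
    unfold rf
    rw [setLIntegral_withDensity_eq_setLIntegral_mul _ (by fun_prop) hw.measurable
      measurableSet_Ici]
    congr 1
    funext k
    rw [Pi.mul_apply, mul_comm]
  rw [e1, e2]
  have hαβ : 0 < β := by
    have h1 := (hν a0 le_rfl).1.trans (hν a0 le_rfl).2
    have h2 : 0 < a0 ^ (1/4 : ℝ) := by positivity
    by_contra hc
    have h3 : β * a0 ^ (1/4 : ℝ) ≤ 0 := mul_nonpos_of_nonpos_of_nonneg (not_lt.mp hc) h2.le
    rw [ENNReal.ofReal_of_nonpos h3] at h1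
    have h4 : 0 < ENNReal.ofReal (α * a0 ^ (1/4 : ℝ)) := ENNReal.ofReal_pos.mpr (by positivity)
    exact absurd h1 (not_le.mpr h4)
  -- the ratio of the shells
  obtain ⟨M, hM2, hM⟩ : ∃ M : ℝ, 2 ≤ M ∧ 2 * β ≤ α * M ^ (1/4 : ℝ) := by
    have h1 : Tendsto (fun M : ℝ => α * M ^ (1/4 : ℝ)) atTop atTop :=
      (tendsto_rpow_atTop (by norm_num)).const_mul_atTop hα
    obtain ⟨M, h2, h3⟩ := ((eventually_ge_atTop (2:ℝ)).and
      (h1.eventually_ge_atTop (2 * β))).exists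
    exact ⟨M, h2, h3⟩
  have hM0 : 0 < M := by linarith
  have ha0' : 0 < a0 := by linarith
  have hb : ∀ n : ℕ, 0 < a0 * M ^ n := fun n => by positivity
  have hb1 : ∀ n : ℕ, a0 ≤ a0 * M ^ n := fun n => by
    have : 1 ≤ M ^ n := one_le_pow₀ (by linarith)
    nlinarith
  have hmono : Monotone fun n : ℕ => a0 * M ^ n := by
    refine monotone_nat_of_le_succ fun n => ?_
    rw [pow_succ]
    nlinarith [hb n]
  have htend : Tendsto (fun n : ℕ => a0 * M ^ n) atTop atTop :=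
    (tendsto_pow_atTop_atTop_of_one_lt (by linarith)).const_mul_atTop ha0'
  have hsucc : ∀ n : ℕ, a0 * M ^ (n + 1) = M * (a0 * M ^ n) := fun n => by ring
  have hroot : ∀ x : ℝ, 0 < x → (M * x) ^ (1/4 : ℝ) = M ^ (1/4 : ℝ) * x ^ (1/4 : ℝ) := fun x hx =>
    Real.mul_rpow hM0.le hx.le
  have hshell : ∀ x : ℝ, a0 ≤ x → ENNReal.ofReal (β * x ^ (1/4 : ℝ)) ≤ ν1 (Ioc x (M * x)) ∧
      ν1 (Ioc x (M * x)) ≤ ENNReal.ofReal (β * M ^ (1/4 : ℝ) * x ^ (1/4 : ℝ)) := by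
    intro x hx
    have hx0 : 0 < x := by linarith
    have hxM : a0 ≤ M * x := by nlinarith
    have hset : (fun ξ : ℂ => ‖ξ‖) ⁻¹' Ioc x (M * x) =
        Metric.closedBall 0 (M * x) \ Metric.closedBall 0 x := by
      ext ξ
      simp [and_comm]
    have hfin : ν (Metric.closedBall 0 x) ≠ ⊤ :=
      ne_top_of_le_ne_top ENNReal.ofReal_ne_top (hν x hx).2
    have hv : ν1 (Ioc x (M * x)) = ν (Metric.closedBall 0 (M * x)) - ν (Metric.closedBall 0 x) := by
      rw [hν1, Measure.map_apply hnm measurableSet_Ioc, hset,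
        measure_diff (Metric.closedBall_subset_closedBall (by nlinarith))
          measurableSet_closedBall.nullMeasurableSet hfin]
    have hxp : 0 < x ^ (1/4 : ℝ) := Real.rpow_pos_of_pos hx0 _
    rw [hv]
    constructor
    · calc ENNReal.ofReal (β * x ^ (1/4 : ℝ))
          ≤ ENNReal.ofReal (α * (M * x) ^ (1/4 : ℝ)) - ENNReal.ofReal (β * x ^ (1/4 : ℝ)) := by
            rw [← ENNReal.ofReal_sub _ (by positivity)]
            apply ENNReal.ofReal_le_ofReal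
            rw [hroot x hx0]
            nlinarith
        _ ≤ _ := tsub_le_tsub (hν _ hxM).1 (hν x hx).2
    · refine tsub_le_self.trans ((hν _ hxM).2.trans ?_)
      rw [hroot x hx0, mul_assoc]
  have hMr : 0 < M ^ (-(3/4) : ℝ) := Real.rpow_pos_of_pos hM0 _
  have hMq : 0 < M ^ (1/4 : ℝ) := Real.rpow_pos_of_pos hM0 _
  constructor
  · intro h
    refine cmp (ν1 := rf) (ν2 := ν1) hmono (by simpa using ha0) htend
      (K := ENNReal.ofReal ((M - 1) * M ^ (1/4 : ℝ) / β)) ENNReal.ofReal_ne_top ?_ ?_ hw hw1 h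
    · intro n
      have h1 := (rf_bounds (hb (n + 1)) (by linarith : 1 ≤ M)).2
      have h2 := (hshell _ (hb1 n)).1
      have e3 : a0 * M ^ (n + 2) = M * (a0 * M ^ (n + 1)) := by ring
      rw [e3]
      refine h1.trans ?_
      calc ENNReal.ofReal ((M - 1) * (a0 * M ^ (n + 1)) ^ (1/4 : ℝ))
          = ENNReal.ofReal ((M - 1) * M ^ (1/4 : ℝ) / β) *
            ENNReal.ofReal (β * (a0 * M ^ n) ^ (1/4 : ℝ)) := by
            rw [← ENNReal.ofReal_mul (div_nonneg (mul_nonneg (by linarith) hMq.le) hαβ.le),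
              hsucc n, hroot _ (hb n)]
            congr 1
            field_simp
        _ ≤ _ := by
            rw [hsucc n]
            gcongr
    · have hle : rf (Icc 1 (a0 * M ^ 1)) ≤ ENNReal.ofReal (a0 * M) := by
        unfold rf
        rw [withDensity_apply _ measurableSet_Icc]
        calc ∫⁻ k in Icc 1 (a0 * M ^ 1), ENNReal.ofReal (k ^ (-(3/4) : ℝ))
            ≤ ∫⁻ _k in Icc 1 (a0 * M ^ 1), 1 := by
              refine setLIntegral_mono' measurableSet_Icc fun k hk => ?_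
              rw [← ENNReal.ofReal_one]
              apply ENNReal.ofReal_le_ofReal
              exact Real.rpow_le_one_of_one_le_of_nonpos hk.1 (by norm_num)
          _ = volume (Icc 1 (a0 * M ^ 1)) := by rw [setLIntegral_const, one_mul]
          _ ≤ ENNReal.ofReal (a0 * M) := by
              rw [Real.volume_Icc]
              apply ENNReal.ofReal_le_ofReal
              rw [pow_one]
              linarith
      exact ne_top_of_le_ne_top ENNReal.ofReal_ne_top hle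
  · intro h
    refine cmp (ν1 := ν1) (ν2 := rf) hmono (by simpa using ha0) htend
      (K := ENNReal.ofReal (β * M ^ (1/4 : ℝ) * M ^ (1/4 : ℝ) / ((M - 1) * M ^ (-(3/4) : ℝ))))
      ENNReal.ofReal_ne_top ?_ ?_ hw hw1 h
    · intro n
      have h1 := (hshell _ (hb1 (n + 1))).2
      have h2 := (rf_bounds (hb n) (by linarith : 1 ≤ M)).1
      have e3 : a0 * M ^ (n + 2) = M * (a0 * M ^ (n + 1)) := by ring
      have hM1 : 0 < M - 1 := by linarith
      rw [e3]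
      refine h1.trans ?_
      calc ENNReal.ofReal (β * M ^ (1/4 : ℝ) * (a0 * M ^ (n + 1)) ^ (1/4 : ℝ))
          = ENNReal.ofReal (β * M ^ (1/4 : ℝ) * M ^ (1/4 : ℝ) / ((M - 1) * M ^ (-(3/4) : ℝ))) *
            ENNReal.ofReal ((M - 1) * M ^ (-(3/4) : ℝ) * (a0 * M ^ n) ^ (1/4 : ℝ)) := by
            rw [← ENNReal.ofReal_mul (by positivity), hsucc n, hroot _ (hb n)]
            congr 1
            field_simp
        _ ≤ _ := by
            rw [hsucc n]
            gcongr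
    · have hb1' : a0 ≤ a0 * M ^ 1 := hb1 1
      have hle : ν1 (Icc 1 (a0 * M ^ 1)) ≤ ENNReal.ofReal (β * (a0 * M ^ 1) ^ (1/4 : ℝ)) := by
        rw [hν1, Measure.map_apply hnm measurableSet_Icc]
        refine (measure_mono ?_).trans (hν _ hb1').2
        intro ξ hξ
        rw [mem_closedBall_zero_iff]
        exact hξ.2
      exact ne_top_of_le_ne_top ENNReal.ofReal_ne_top hle

end Pool.Agent.U151.SF
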