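import Pool.Agent.U151.SF.Four
import Pool.Agent.Results.MP_b3e76a_pr.EnergyProfile

/-!
The squared Fourier transform of the natural time on the pieces of a curve, from the correlation
integrals of the pieces.
-/

set_option autoImplicit false

namespace Pool.Agent.U151.SF

open H984N MeasureTheory Filter Topology Complex
open scoped Real InnerProductSpace
open Pool.Agent.Results.MP_b3e76a_pr.EnergyProfile (near)

/-- The uniform measure on the piece. -/
noncomputable def la (s t : unitInterval) : Measure unitInterval := volume.restrict (Set.Icc s t)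

instance (s t : unitInterval) : IsFiniteMeasure (la s t) := by
  unfold la
  infer_instance

theorem la_univ {s t : unitInterval} (h : s ≤ t) : (la s t).real Set.univ = (t:ℝ) - s := by
  have h' : (s:ℝ) ≤ t := h
  unfold la
  rw [measureReal_restrict_apply MeasurableSet.univ, Set.univ_inter, measureReal_def,
    unitInterval.volume_Icc, ENNReal.toReal_ofReal (by linarith)]

theorem near_eq (p : X) (s t : unitInterval) (r : ℝ) (u : unitInterval) :
    near p s t r u = p.2 * (la s t {v | ‖p.1 u - p.1 v‖ ≤ r}).toReal := by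
  unfold near la
  have hm : MeasurableSet {v : unitInterval | ‖p.1 u - p.1 v‖ ≤ r} :=
    measurableSet_le (measurable_const.sub p.1.continuous.measurable).norm measurable_const
  rw [Measure.restrict_apply hm]
  congr 3
  ext v
  simp only [Set.mem_ofPred_eq, Set.mem_inter_iff, Set.mem_Icc, dist_eq_norm]
  tauto

theorem near_meas (p : X) (s t : unitInterval) (r : ℝ) : Measurable (near p s t r) := by
  have h1 : Measurable fun u => la s t (Prod.mk u ⁻¹' {x : unitInterval × unitInterval |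
      ‖p.1 x.1 - p.1 x.2‖ ≤ r}) :=
    measurable_measure_prodMk_left (meas_set p.1.continuous.measurable r)
  have h2 : near p s t r = fun u => p.2 * (la s t (Prod.mk u ⁻¹' {x : unitInterval × unitInterval |
      ‖p.1 x.1 - p.1 x.2‖ ≤ r})).toReal := by
    funext u
    rw [near_eq]
    rfl
  rw [h2]
  exact h1.ennreal_toReal.const_mul _

theorem co_near (p : X) (s t : unitInterval) (r : ℝ) :
    p.2 * co (la s t) p.1 r = ∫ u in Set.Icc s t, near p s t r u := by
  have hS := meas_set (g := (p.1 : unitInterval → ℂ)) p.1.continuous.measurable r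
  simp_rw [near_eq]
  rw [integral_const_mul]
  congr 1
  unfold co
  rw [measureReal_def, Measure.prod_apply hS]
  change _ = ∫ u, (la s t {v | ‖p.1 u - p.1 v‖ ≤ r}).toReal ∂(la s t)
  rw [← integral_toReal]
  · rfl
  · exact (measurable_measure_prodMk_left hS).aemeasurable
  · exact Filter.Eventually.of_forall fun u => measure_lt_top _ _

theorem near_nonneg {p : X} (hp : 0 < p.2) (s t : unitInterval) (r : ℝ) (u : unitInterval) :
    0 ≤ near p s t r u := by
  rw [near_eq]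
  positivity

theorem near_le {p : X} (hp : 0 < p.2) {s t : unitInterval} (h : s ≤ t) (r : ℝ)
    (u : unitInterval) : near p s t r u ≤ p.2 * ((t:ℝ) - s) := by
  rw [near_eq, ← la_univ h]
  apply mul_le_mul_of_nonneg_left _ hp.le
  exact ENNReal.toReal_mono (measure_ne_top _ _) (measure_mono (Set.subset_univ _))

theorem co_upper {p : X} (hp : 0 < p.2) {s t : unitInterval} (h : s ≤ t) {r B : ℝ} (hB : 0 < B)
    (h7 : ∫ u in Set.Icc s t, near p s t r u ^ 7 ≤ B ^ 7 * ((t:ℝ) - s)) :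
    p.2 * co (la s t) p.1 r ≤ 2 * B * ((t:ℝ) - s) := by
  have h' : (s:ℝ) ≤ t := h
  rw [co_near]
  have hi : ∀ k : ℕ, Integrable (fun u => near p s t r u ^ k) (volume.restrict (Set.Icc s t)) := by
    intro k
    refine Integrable.mono' (integrable_const ((p.2 * ((t:ℝ) - s)) ^ k))
      ((near_meas p s t r).pow_const k).aestronglyMeasurable
      (Filter.Eventually.of_forall fun u => ?_)
    rw [Real.norm_eq_abs, abs_of_nonneg (pow_nonneg (near_nonneg hp s t r u) k)]
    exact pow_le_pow_left₀ (near_nonneg hp s t r u) (near_le hp h r u) k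
  have h1 := hi 1
  simp only [pow_one] at h1
  calc ∫ u in Set.Icc s t, near p s t r u
      ≤ ∫ u in Set.Icc s t, (1 / B ^ 6 * near p s t r u ^ 7 + B) := by
        refine integral_mono h1 (((hi 7).const_mul _).add (integrable_const _)) fun u => ?_
        have hn := near_nonneg hp s t r u
        change near p s t r u ≤ 1 / B ^ 6 * near p s t r u ^ 7 + B
        rcases le_or_gt (near p s t r u) B with hb | hb
        · have : 0 ≤ 1 / B ^ 6 * near p s t r u ^ 7 := by positivity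
          linarith
        · have h3 : B ^ 6 ≤ near p s t r u ^ 6 := pow_le_pow_left₀ hB.le hb.le 6
          have h4 : near p s t r u ≤ 1 / B ^ 6 * near p s t r u ^ 7 := by
            rw [one_div, ← div_eq_inv_mul, le_div_iff₀ (by positivity)]
            calc near p s t r u * B ^ 6 ≤ near p s t r u * near p s t r u ^ 6 :=
                  mul_le_mul_of_nonneg_left h3 hn
              _ = near p s t r u ^ 7 := by ring
          linarith
    _ = 1 / B ^ 6 * (∫ u in Set.Icc s t, near p s t r u ^ 7) + B * ((t:ℝ) - s) := by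
        rw [integral_add ((hi 7).const_mul _) (integrable_const _), integral_const_mul,
          integral_const, smul_eq_mul]
        have := la_univ h
        unfold la at this
        rw [this]
        ring
    _ ≤ 1 / B ^ 6 * (B ^ 7 * ((t:ℝ) - s)) + B * ((t:ℝ) - s) := by
        have : 0 ≤ 1 / B ^ 6 := by positivity
        linarith [mul_le_mul_of_nonneg_left h7 this]
    _ = 2 * B * ((t:ℝ) - s) := by
        field_simp
        ring

/-- The correlation integrals of all pieces of length at least `D r ^ (7/4) log (1/r)` are of order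
`r ^ (7/4)`, for `r ≤ r1`. -/
def CoOk (c D r1 : ℝ) (p : X) : Prop :=
  ∀ r : ℝ, 0 < r → r ≤ r1 → ∀ s t : unitInterval, s ≤ t →
    D * (r ^ (7/4 : ℝ) * Real.log (1 / r)) ≤ p.2 * ((t:ℝ) - s) →
    c * r ^ (7/4 : ℝ) * ((t:ℝ) - s) ≤ p.2 * co (la s t) p.1 r ∧
    p.2 * co (la s t) p.1 r ≤ 2 * D * r ^ (7/4 : ℝ) * ((t:ℝ) - s)

theorem exists_coOk {c D : ℝ} (hD : 0 < D) {p : X} (hp : 0 < p.2)
    (h : ∀ᶠ r : ℝ in 𝓝[>] 0, ∀ s t : unitInterval, s ≤ t →
      D * (r ^ (7/4 : ℝ) * Real.log (1 / r)) ≤ p.2 * ((t:ℝ) - s) →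
        c * r ^ (7/4 : ℝ) * ((t:ℝ) - s) ≤ ∫ u in Set.Icc s t, near p s t r u ∧
        ∫ u in Set.Icc s t, near p s t r u ^ 7 ≤ (D * r ^ (7/4 : ℝ)) ^ 7 * ((t:ℝ) - s)) :
    ∃ r1 : ℝ, 0 < r1 ∧ CoOk c D r1 p := by
  obtain ⟨ε, hε, hh⟩ := Metric.mem_nhdsWithin_iff.mp h
  refine ⟨ε / 2, by positivity, fun r hr hr1 s t hst hT => ?_⟩
  have hmem : r ∈ Metric.ball (0:ℝ) ε ∩ Set.Ioi 0 := by
    refine ⟨?_, hr⟩
    rw [Metric.mem_ball, Real.dist_eq, sub_zero, abs_of_pos hr]
    linarith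
  obtain ⟨h1, h2⟩ := hh hmem s t hst hT
  refine ⟨by rw [co_near]; exact h1, ?_⟩
  have h3 := co_upper hp hst (B := D * r ^ (7/4 : ℝ))
    (mul_pos hD (Real.rpow_pos_of_pos hr _)) h2
  calc p.2 * co (la s t) p.1 r ≤ 2 * (D * r ^ (7/4 : ℝ)) * ((t:ℝ) - s) := h3
    _ = _ := by ring

/-- The small scales. -/
def Sm (D r1 T r : ℝ) : Prop :=
  0 < r ∧ 1 ≤ Real.log (1 / r) ∧ 8 * Real.log (1 / r) * r ≤ r1 ∧ T * r ^ (1/4 : ℝ) ≤ 2 * D

theorem ev_sm {D r1 T : ℝ} (hD : 0 < D) (hr1 : 0 < r1) : ∀ᶠ r : ℝ in 𝓝[>] 0, Sm D r1 T r := by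
  have h1 : Tendsto (fun r : ℝ => Real.log (1 / r)) (𝓝[>] 0) atTop := by
    have h := tendsto_neg_atBot_atTop.comp Real.tendsto_log_nhdsGT_zero
    refine h.congr fun r => ?_
    rw [one_div, Real.log_inv]
    rfl
  have h2 : Tendsto (fun r : ℝ => 8 * Real.log (1 / r) * r) (𝓝[>] 0) (𝓝 0) := by
    have h := (tendsto_log_mul_rpow_nhdsGT_zero (r := 1) one_pos).const_mul (-8)
    rw [mul_zero] at h
    refine h.congr fun r => ?_
    rw [one_div, Real.log_inv, Real.rpow_one]
    ring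
  have h3 : Tendsto (fun r : ℝ => T * r ^ (1/4 : ℝ)) (𝓝[>] 0) (𝓝 0) := by
    have h : Tendsto (fun r : ℝ => r ^ (1/4 : ℝ)) (𝓝 0) (𝓝 ((0:ℝ) ^ (1/4 : ℝ))) :=
      (Real.continuousAt_rpow_const 0 (1/4) (Or.inr (by norm_num))).tendsto
    rw [Real.zero_rpow (by norm_num)] at h
    have := (h.mono_left (nhdsWithin_le_nhds (s := Set.Ioi 0))).const_mul T
    rwa [mul_zero] at this
  have e0 : ∀ᶠ r : ℝ in 𝓝[>] 0, 0 < r := self_mem_nhdsWithin
  filter_upwards [e0, h1.eventually_ge_atTop 1, h2.eventually (ge_mem_nhds hr1),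
    h3.eventually (ge_mem_nhds (by positivity : (0:ℝ) < 2 * D))] with r g0 g1 g2 g3
  exact ⟨g0, g1, g2, g3⟩

theorem r74 {r : ℝ} (hr : 0 < r) : r ^ (7/4 : ℝ) / r ^ 2 = r ^ (-(1/4) : ℝ) := by
  rw [← Real.rpow_two, ← Real.rpow_sub hr]
  norm_num

/-- The upper bound at one scale. -/
theorem up_one {c D r1 : ℝ} (hD : 0 < D) {p : X} (hp : 0 < p.2)
    (hco : CoOk c D r1 p) {s t : unitInterval} (h : s ≤ t) {r : ℝ} (hs : Sm D r1 p.2 r)
    (h8 : 8 * D * (r ^ (7/4 : ℝ) * Real.log (1 / r) ^ 2) ≤ p.2 * ((t:ℝ) - s)) :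
    p.2 * ga (la s t) p.1 r ≤ 26 * D * r ^ (7/4 : ℝ) * ((t:ℝ) - s) := by
  have h' : (s:ℝ) ≤ t := h
  obtain ⟨g0, g1, g2, g3⟩ := hs
  have := ga_up (la s t) (g := (p.1 : unitInterval → ℂ)) p.1.continuous.measurable hp (la_univ h)
    (by linarith) (by linarith [s.2.1, t.2.2]) (B := 2 * D) (by positivity) hD.le
    (fun ρ hρ hρ1 hρ2 => (hco ρ hρ hρ1 s t h hρ2).2) g0 g1 g2 h8 g3
  linarith

theorem low_one {c D r1 : ℝ} (hD : 0 < D) {p : X}
    (hco : CoOk c D r1 p) {s t : unitInterval} (h : s ≤ t) {r : ℝ} (hs : Sm D r1 p.2 r)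
    (h8 : 8 * D * (r ^ (7/4 : ℝ) * Real.log (1 / r) ^ 2) ≤ p.2 * ((t:ℝ) - s)) :
    Real.exp (-1) * (c * r ^ (7/4 : ℝ) * ((t:ℝ) - s)) ≤ p.2 * ga (la s t) p.1 r ∨ p.2 < 0 := by
  rcases lt_or_ge p.2 0 with h0 | h0
  · exact Or.inr h0
  left
  obtain ⟨g0, g1, g2, g3⟩ := hs
  have hr7 : 0 < r ^ (7/4 : ℝ) := Real.rpow_pos_of_pos g0 _
  have h1 := (hco r g0 (by nlinarith) s t h (by
    refine le_trans ?_ h8
    have h5 : D * (r ^ (7/4 : ℝ) * Real.log (1 / r)) ≤
        D * (r ^ (7/4 : ℝ) * Real.log (1 / r) ^ 2) := by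
      apply mul_le_mul_of_nonneg_left _ hD.le
      apply mul_le_mul_of_nonneg_left _ hr7.le
      nlinarith
    have h2 : 0 ≤ D * (r ^ (7/4 : ℝ) * Real.log (1 / r) ^ 2) := by positivity
    linarith)).1
  have h2 := ga_lower (la s t) (g := (p.1 : unitInterval → ℂ)) p.1.continuous.measurable g0
  calc Real.exp (-1) * (c * r ^ (7/4 : ℝ) * ((t:ℝ) - s))
      ≤ Real.exp (-1) * (p.2 * co (la s t) p.1 r) :=
        mul_le_mul_of_nonneg_left h1 (Real.exp_pos _).le
    _ = p.2 * (Real.exp (-1) * co (la s t) p.1 r) := by ring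
    _ ≤ p.2 * ga (la s t) p.1 r := mul_le_mul_of_nonneg_left h2 h0

end Pool.Agent.U151.SF
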