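import Pool.Agent.U151.SF.Gauss

/-!
Gaussian averages of the pair distances of a finite measure in terms of its correlation integrals.
-/

set_option autoImplicit false

namespace Pool.Agent.U151.SF

open MeasureTheory Complex
open scoped Real InnerProductSpace

variable {Ω : Type*} [MeasurableSpace Ω]

/-- The correlation integral of the image of `lam` under `g`. -/
noncomputable def co (lam : Measure Ω) (g : Ω → ℂ) (r : ℝ) : ℝ :=
  (lam.prod lam).real {x : Ω × Ω | ‖g x.1 - g x.2‖ ≤ r}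

/-- The Gaussian average of the pair distances. -/
noncomputable def ga (lam : Measure Ω) (g : Ω → ℂ) (r : ℝ) : ℝ :=
  ∫ x : Ω × Ω, Real.exp (-(‖g x.1 - g x.2‖ ^ 2 / r ^ 2)) ∂(lam.prod lam)

theorem meas_set {g : Ω → ℂ} (hg : Measurable g) (r : ℝ) :
    MeasurableSet {x : Ω × Ω | ‖g x.1 - g x.2‖ ≤ r} :=
  measurableSet_le ((hg.comp measurable_fst).sub (hg.comp measurable_snd)).norm measurable_const

theorem meas_exp {g : Ω → ℂ} (hg : Measurable g) (r : ℝ) :
    Measurable fun x : Ω × Ω => Real.exp (-(‖g x.1 - g x.2‖ ^ 2 / r ^ 2)) := by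
  apply Real.measurable_exp.comp
  exact ((((hg.comp measurable_fst).sub (hg.comp measurable_snd)).norm.pow_const 2).div_const
    _).neg

theorem int_exp (lam : Measure Ω) [IsFiniteMeasure lam] {g : Ω → ℂ} (hg : Measurable g) (r : ℝ) :
    Integrable (fun x : Ω × Ω => Real.exp (-(‖g x.1 - g x.2‖ ^ 2 / r ^ 2))) (lam.prod lam) := by
  refine Integrable.mono' (integrable_const (1 : ℝ)) (meas_exp hg r).aestronglyMeasurable
    (Filter.Eventually.of_forall fun x => ?_)
  rw [Real.norm_eq_abs, abs_of_pos (Real.exp_pos _)]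
  apply Real.exp_le_one_iff.mpr
  have : 0 ≤ ‖g x.1 - g x.2‖ ^ 2 / r ^ 2 := by positivity
  linarith

theorem ga_lower (lam : Measure Ω) [IsFiniteMeasure lam] {g : Ω → ℂ} (hg : Measurable g)
    {r : ℝ} (hr : 0 < r) : Real.exp (-1) * co lam g r ≤ ga lam g r := by
  have h1 : Real.exp (-1) * co lam g r =
      ∫ x : Ω × Ω, ({x : Ω × Ω | ‖g x.1 - g x.2‖ ≤ r}).indicator (fun _ => Real.exp (-1)) x
        ∂(lam.prod lam) := by
    rw [integral_indicator_const _ (meas_set hg r), smul_eq_mul, mul_comm]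
    rfl
  rw [h1]
  refine integral_mono ((integrable_const _).indicator (meas_set hg r)) (int_exp lam hg r) ?_
  intro x
  by_cases hx : ‖g x.1 - g x.2‖ ≤ r
  · rw [Set.indicator_of_mem (by exact hx)]
    apply Real.exp_le_exp.mpr
    have : ‖g x.1 - g x.2‖ ^ 2 / r ^ 2 ≤ 1 := by
      rw [div_le_one (by positivity)]
      exact pow_le_pow_left₀ (norm_nonneg _) hx 2
    linarith
  · rw [Set.indicator_of_notMem (by exact hx)]
    exact (Real.exp_pos _).le

theorem pw {x r : ℝ} (hx : 0 ≤ x) (hr : 0 < r) (J : ℕ) :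
    Real.exp (-(x ^ 2 / r ^ 2)) ≤ (if x ≤ r then 1 else 0) +
      ∑ j ∈ Finset.range J, Real.exp (-4 ^ j) * (if x ≤ 2 ^ (j + 1) * r then 1 else 0) +
      Real.exp (-4 ^ J) := by
  induction J with
  | zero =>
    rw [Finset.sum_range_zero, add_zero, pow_zero]
    split_ifs with h
    · have h1 : Real.exp (-(x ^ 2 / r ^ 2)) ≤ 1 := by
        apply Real.exp_le_one_iff.mpr
        have : 0 ≤ x ^ 2 / r ^ 2 := by positivity
        linarith
      have := Real.exp_pos (-1 : ℝ)
      linarith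
    · have h1 : 1 ≤ x ^ 2 / r ^ 2 := by
        rw [one_le_div (by positivity)]
        exact pow_le_pow_left₀ hr.le (not_le.mp h).le 2
      have h2 : Real.exp (-(x ^ 2 / r ^ 2)) ≤ Real.exp (-1) := by
        apply Real.exp_le_exp.mpr
        linarith
      linarith
  | succ J ih =>
    rw [Finset.sum_range_succ]
    have hp : 0 ≤ ∑ j ∈ Finset.range J, Real.exp (-4 ^ j) *
        (if x ≤ 2 ^ (j + 1) * r then (1:ℝ) else 0) :=
      Finset.sum_nonneg fun j _ => mul_nonneg (Real.exp_pos _).le (by split_ifs <;> norm_num)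
    have hp0 : (0:ℝ) ≤ if x ≤ r then 1 else 0 := by split_ifs <;> norm_num
    by_cases h : x ≤ 2 ^ (J + 1) * r
    · rw [if_pos h, mul_one]
      have := Real.exp_pos (-4 ^ (J + 1) : ℝ)
      linarith
    · rw [if_neg h, mul_zero]
      have h1 : (4:ℝ) ^ (J + 1) ≤ x ^ 2 / r ^ 2 := by
        rw [le_div_iff₀ (by positivity)]
        have h3 : (2 ^ (J + 1) * r) ^ 2 ≤ x ^ 2 :=
          pow_le_pow_left₀ (by positivity) (not_le.mp h).le 2
        have h4 : ((2:ℝ) ^ (J + 1) * r) ^ 2 = 4 ^ (J + 1) * r ^ 2 := by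
          rw [mul_pow, ← pow_mul, mul_comm (J + 1) 2, pow_mul]
          norm_num
        linarith
      have h2 : Real.exp (-(x ^ 2 / r ^ 2)) ≤ Real.exp (-4 ^ (J + 1)) := by
        apply Real.exp_le_exp.mpr
        linarith
      linarith

theorem ga_upper (lam : Measure Ω) [IsFiniteMeasure lam] {g : Ω → ℂ} (hg : Measurable g)
    {r : ℝ} (hr : 0 < r) (J : ℕ) :
    ga lam g r ≤ co lam g r +
      ∑ j ∈ Finset.range J, Real.exp (-4 ^ j) * co lam g (2 ^ (j + 1) * r) +
      Real.exp (-4 ^ J) * lam.real Set.univ ^ 2 := by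
  have hI : ∀ (ρ c : ℝ), Integrable (fun x : Ω × Ω => c * (if ‖g x.1 - g x.2‖ ≤ ρ then 1 else 0))
      (lam.prod lam) := by
    intro ρ c
    apply Integrable.const_mul
    have := (integrable_const (μ := lam.prod lam) (1:ℝ)).indicator (meas_set hg ρ)
    refine this.congr (Filter.Eventually.of_forall fun x => ?_)
    simp only [Set.indicator_apply, Set.mem_ofPred_eq]
  have hv : ∀ (ρ c : ℝ), ∫ x : Ω × Ω, c * (if ‖g x.1 - g x.2‖ ≤ ρ then 1 else 0) ∂(lam.prod lam) =
      c * co lam g ρ := by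
    intro ρ c
    rw [integral_const_mul]
    congr 1
    have h1 : ∀ x : Ω × Ω, (if ‖g x.1 - g x.2‖ ≤ ρ then (1:ℝ) else 0) =
        ({x : Ω × Ω | ‖g x.1 - g x.2‖ ≤ ρ}).indicator (fun _ => (1:ℝ)) x := by
      intro x
      simp only [Set.indicator_apply, Set.mem_ofPred_eq]
    simp_rw [h1]
    rw [integral_indicator_const _ (meas_set hg ρ), smul_eq_mul, mul_one]
    rfl
  have h0 := hI r 1
  have h0v := hv r 1
  simp only [one_mul] at h0 h0v
  have hs : Integrable (fun x : Ω × Ω => ∑ j ∈ Finset.range J, Real.exp (-4 ^ j) *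
      (if ‖g x.1 - g x.2‖ ≤ 2 ^ (j + 1) * r then 1 else 0)) (lam.prod lam) :=
    integrable_finsetSum _ fun j _ => hI _ _
  have h01 : Integrable (fun x : Ω × Ω => (if ‖g x.1 - g x.2‖ ≤ r then (1:ℝ) else 0) +
      ∑ j ∈ Finset.range J, Real.exp (-4 ^ j) *
      (if ‖g x.1 - g x.2‖ ≤ 2 ^ (j + 1) * r then 1 else 0)) (lam.prod lam) := h0.add hs
  calc ga lam g r ≤ ∫ x : Ω × Ω, (((if ‖g x.1 - g x.2‖ ≤ r then (1:ℝ) else 0) +
      ∑ j ∈ Finset.range J, Real.exp (-4 ^ j) *
        (if ‖g x.1 - g x.2‖ ≤ 2 ^ (j + 1) * r then 1 else 0)) +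
      Real.exp (-4 ^ J)) ∂(lam.prod lam) := by
        refine integral_mono (int_exp lam hg r) (h01.add (integrable_const _)) fun x => ?_
        exact pw (norm_nonneg _) hr J
    _ = _ := by
        rw [integral_add h01 (integrable_const _), integral_add h0 hs,
          integral_finsetSum _ fun j _ => hI _ _, h0v, integral_const, smul_eq_mul]
        congr 1
        · congr 1
          exact Finset.sum_congr rfl fun j _ => hv _ _
        · rw [mul_comm]
          congr 1
          rw [← Set.univ_prod_univ, measureReal_prod_prod, sq]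

end Pool.Agent.U151.SF
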