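import Pool.Agent.U151.SF.Num

/-!
The squared characteristic function integrated over a disk, from its Gaussian averages.
-/

set_option autoImplicit false

namespace Pool.Agent.U151.SF

open MeasureTheory Complex
open scoped Real InnerProductSpace

variable {Ω : Type*} [MeasurableSpace Ω]

theorem cf_meas (lam : Measure Ω) [IsFiniteMeasure lam] {g : Ω → ℂ} (hg : Measurable g) :
    StronglyMeasurable (cf lam g) := by
  have h : Measurable fun p : ℂ × Ω => cexp (((⟪p.1, g p.2⟫_ℝ : ℝ) : ℂ) * I) := by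
    apply Complex.measurable_exp.comp
    apply Measurable.mul_const
    apply Complex.measurable_ofReal.comp
    exact Measurable.inner measurable_fst (hg.comp measurable_snd)
  exact h.stronglyMeasurable.integral_prod_right'

theorem cf_le (lam : Measure Ω) [IsFiniteMeasure lam] (g : Ω → ℂ) (ξ : ℂ) :
    ‖cf lam g ξ‖ ≤ lam.real Set.univ := by
  refine (norm_integral_le_of_norm_le_const (C := 1)
    (Filter.Eventually.of_forall fun u => ?_)).trans_eq (one_mul _)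
  exact (norm_e _).le

theorem cf_sq_meas (lam : Measure Ω) [IsFiniteMeasure lam] {g : Ω → ℂ} (hg : Measurable g) :
    Measurable fun ξ => ‖cf lam g ξ‖ ^ 2 :=
  (cf_meas lam hg).measurable.norm.pow_const 2

theorem cf_sq_le (lam : Measure Ω) [IsFiniteMeasure lam] (g : Ω → ℂ) (ξ : ℂ) :
    ‖cf lam g ξ‖ ^ 2 ≤ lam.real Set.univ ^ 2 :=
  pow_le_pow_left₀ (norm_nonneg _) (cf_le lam g ξ) 2

theorem int_gauss {b : ℝ} (hb : 0 < b) : Integrable (fun ξ : ℂ => Real.exp (-b * ‖ξ‖ ^ 2)) := by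
  have h1 := GaussianFourier.integrable_cexp_neg_mul_sq_norm_add (V := ℂ) (b := (b : ℂ))
    (by simpa using hb) 0 0
  have h2 := h1.norm
  refine h2.congr (Filter.Eventually.of_forall fun ξ => ?_)
  simp only [zero_mul, add_zero, Complex.norm_exp]
  congr 1
  rw [← Complex.ofReal_pow, ← Complex.ofReal_neg, Complex.re_ofReal_mul, Complex.ofReal_re]

theorem int_gs (lam : Measure Ω) [IsFiniteMeasure lam] {g : Ω → ℂ} (hg : Measurable g)
    {b : ℝ} (hb : 0 < b) : Integrable (fun ξ : ℂ => Real.exp (-b * ‖ξ‖ ^ 2) * ‖cf lam g ξ‖ ^ 2) := by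
  refine Integrable.mono' ((int_gauss hb).mul_const (lam.real Set.univ ^ 2)) ?_
    (Filter.Eventually.of_forall fun ξ => ?_)
  · apply Measurable.aestronglyMeasurable
    apply Measurable.mul _ (cf_sq_meas lam hg)
    fun_prop
  · rw [Real.norm_eq_abs, abs_of_nonneg (by positivity)]
    exact mul_le_mul_of_nonneg_left (cf_sq_le lam g ξ) (Real.exp_pos _).le

theorem int_ball (lam : Measure Ω) [IsFiniteMeasure lam] {g : Ω → ℂ} (hg : Measurable g)
    (a : ℝ) : IntegrableOn (fun ξ : ℂ => ‖cf lam g ξ‖ ^ 2) (Metric.closedBall 0 a) := by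
  refine Integrable.mono' (integrableOn_const (C := lam.real Set.univ ^ 2)
    measure_closedBall_lt_top.ne) (cf_sq_meas lam hg).aestronglyMeasurable
    (Filter.Eventually.of_forall fun ξ => ?_)
  rw [Real.norm_eq_abs, abs_of_nonneg (by positivity)]
  exact cf_sq_le lam g ξ

theorem gauss_ga (lam : Measure Ω) [IsFiniteMeasure lam] {g : Ω → ℂ} (hg : Measurable g)
    {r : ℝ} (hr : 0 < r) :
    ∫ ξ : ℂ, Real.exp (-(r ^ 2 / 4) * ‖ξ‖ ^ 2) * ‖cf lam g ξ‖ ^ 2 =
      4 * π / r ^ 2 * ga lam g r := by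
  rw [gauss lam hg (by positivity : 0 < r ^ 2 / 4), ga]
  congr 1
  · field_simp
  · congr 1
    funext x
    congr 2
    field_simp

theorem ball_upper (lam : Measure Ω) [IsFiniteMeasure lam] {g : Ω → ℂ} (hg : Measurable g)
    {r a : ℝ} (hr : 0 < r) :
    ∫ ξ in Metric.closedBall (0:ℂ) a, ‖cf lam g ξ‖ ^ 2 ≤
      Real.exp (r ^ 2 * a ^ 2 / 4) * (4 * π / r ^ 2 * ga lam g r) := by
  rw [← gauss_ga lam hg hr]
  have hb : 0 < r ^ 2 / 4 := by positivity
  calc ∫ ξ in Metric.closedBall (0:ℂ) a, ‖cf lam g ξ‖ ^ 2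
      ≤ ∫ ξ in Metric.closedBall (0:ℂ) a, Real.exp (r ^ 2 * a ^ 2 / 4) *
        (Real.exp (-(r ^ 2 / 4) * ‖ξ‖ ^ 2) * ‖cf lam g ξ‖ ^ 2) := by
        refine setIntegral_mono_on (int_ball lam hg a)
          ((int_gs lam hg hb).const_mul _).integrableOn measurableSet_closedBall ?_
        intro ξ hξ
        have hξ' : ‖ξ‖ ≤ a := by simpa using hξ
        rw [← mul_assoc, ← Real.exp_add]
        have h1 : 1 ≤ Real.exp (r ^ 2 * a ^ 2 / 4 + -(r ^ 2 / 4) * ‖ξ‖ ^ 2) := by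
          apply Real.one_le_exp
          have h2 : ‖ξ‖ ^ 2 ≤ a ^ 2 := pow_le_pow_left₀ (norm_nonneg _) hξ' 2
          nlinarith [sq_nonneg r]
        have h3 : 0 ≤ ‖cf lam g ξ‖ ^ 2 := by positivity
        nlinarith
    _ ≤ ∫ ξ : ℂ, Real.exp (r ^ 2 * a ^ 2 / 4) *
        (Real.exp (-(r ^ 2 / 4) * ‖ξ‖ ^ 2) * ‖cf lam g ξ‖ ^ 2) := by
        refine setIntegral_le_integral ((int_gs lam hg hb).const_mul _)
          (Filter.Eventually.of_forall fun ξ => ?_)
        simp only [Pi.zero_apply]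
        positivity
    _ = _ := integral_const_mul _ _

theorem ball_lower (lam : Measure Ω) [IsFiniteMeasure lam] {g : Ω → ℂ} (hg : Measurable g)
    {r a : ℝ} (hr : 0 < r) (ha : 0 ≤ a) :
    4 * π / r ^ 2 * ga lam g r -
      Real.exp (-(3 / 16 * (r * a) ^ 2)) * (16 * π / r ^ 2 * ga lam g (r / 2)) ≤
      ∫ ξ in Metric.closedBall (0:ℂ) a, ‖cf lam g ξ‖ ^ 2 := by
  have hb : 0 < r ^ 2 / 4 := by positivity
  have hb4 : 0 < (r / 2) ^ 2 / 4 := by positivity
  have e16 : 16 * π / r ^ 2 * ga lam g (r / 2) =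
      ∫ ξ : ℂ, Real.exp (-((r / 2) ^ 2 / 4) * ‖ξ‖ ^ 2) * ‖cf lam g ξ‖ ^ 2 := by
    rw [gauss_ga lam hg (by positivity : 0 < r / 2)]
    congr 1
    field_simp
    norm_num
  rw [e16, ← gauss_ga lam hg hr]
  have hsplit := integral_add_compl (μ := (volume : Measure ℂ))
    (measurableSet_closedBall (x := (0:ℂ)) (ε := a)) (int_gs lam hg hb)
  have h1 : ∫ ξ in (Metric.closedBall (0:ℂ) a)ᶜ,
      Real.exp (-(r ^ 2 / 4) * ‖ξ‖ ^ 2) * ‖cf lam g ξ‖ ^ 2 ≤
      Real.exp (-(3 / 16 * (r * a) ^ 2)) *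
      ∫ ξ : ℂ, Real.exp (-((r / 2) ^ 2 / 4) * ‖ξ‖ ^ 2) * ‖cf lam g ξ‖ ^ 2 := by
    rw [← integral_const_mul]
    refine le_trans (setIntegral_mono_on (int_gs lam hg hb).integrableOn
      ((int_gs lam hg hb4).const_mul (Real.exp (-(3 / 16 * (r * a) ^ 2)))).integrableOn
      measurableSet_closedBall.compl ?_) (setIntegral_le_integral
        ((int_gs lam hg hb4).const_mul _) (Filter.Eventually.of_forall fun ξ => ?_))
    · intro ξ hξ
      have hξ' : a < ‖ξ‖ := by simpa using hξ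
      rw [← mul_assoc, ← Real.exp_add]
      apply mul_le_mul_of_nonneg_right _ (by positivity)
      apply Real.exp_le_exp.mpr
      have h2 : a ^ 2 ≤ ‖ξ‖ ^ 2 := pow_le_pow_left₀ ha hξ'.le 2
      nlinarith [sq_nonneg r, mul_le_mul_of_nonneg_left h2 (sq_nonneg r)]
    · simp only [Pi.zero_apply]
      positivity
  have h2 : ∫ ξ in Metric.closedBall (0:ℂ) a,
      Real.exp (-(r ^ 2 / 4) * ‖ξ‖ ^ 2) * ‖cf lam g ξ‖ ^ 2 ≤
      ∫ ξ in Metric.closedBall (0:ℂ) a, ‖cf lam g ξ‖ ^ 2 := by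
    refine setIntegral_mono_on (int_gs lam hg hb).integrableOn (int_ball lam hg a)
      measurableSet_closedBall ?_
    intro ξ _
    have h3 : Real.exp (-(r ^ 2 / 4) * ‖ξ‖ ^ 2) ≤ 1 := by
      apply Real.exp_le_one_iff.mpr
      have : 0 ≤ r ^ 2 / 4 * ‖ξ‖ ^ 2 := by positivity
      linarith
    have h4 : 0 ≤ ‖cf lam g ξ‖ ^ 2 := by positivity
    nlinarith
  linarith

end Pool.Agent.U151.SF
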