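import Mathlib

/-!
The Gaussian averages of the characteristic function of a finite measure.
-/

set_option autoImplicit false

namespace Pool.Agent.U151.SF

open MeasureTheory Complex
open scoped Real InnerProductSpace

variable {Ω : Type*} [MeasurableSpace Ω]

/-- The characteristic function of the image of `lam` under `g`. -/
noncomputable def cf (lam : Measure Ω) (g : Ω → ℂ) (ξ : ℂ) : ℂ :=
  ∫ u, cexp (((⟪ξ, g u⟫_ℝ : ℝ) : ℂ) * I) ∂lam

theorem meas_ip {g : Ω → ℂ} (hg : Measurable g) (ξ : ℂ) : Measurable fun u => ⟪ξ, g u⟫_ℝ :=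
  (continuous_const.inner continuous_id).measurable.comp hg

theorem norm_e (x : ℝ) : ‖cexp ((x : ℂ) * I)‖ = 1 := Complex.norm_exp_ofReal_mul_I x

theorem cf_sq (lam : Measure Ω) [IsFiniteMeasure lam] {g : Ω → ℂ} (hg : Measurable g) (ξ : ℂ) :
    (((‖cf lam g ξ‖ ^ 2 : ℝ)) : ℂ) =
      ∫ x : Ω × Ω, cexp (((⟪ξ, g x.1 - g x.2⟫_ℝ : ℝ) : ℂ) * I) ∂(lam.prod lam) := by
  have e1 : ∀ x : Ω × Ω, cexp (((⟪ξ, g x.1 - g x.2⟫_ℝ : ℝ) : ℂ) * I) =
      cexp (((⟪ξ, g x.1⟫_ℝ : ℝ) : ℂ) * I) *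
        (starRingEnd ℂ) (cexp (((⟪ξ, g x.2⟫_ℝ : ℝ) : ℂ) * I)) := by
    intro x
    rw [← Complex.exp_conj, map_mul, Complex.conj_ofReal, Complex.conj_I, ← Complex.exp_add,
      inner_sub_right]
    congr 1
    push_cast
    ring
  simp_rw [e1]
  rw [integral_prod_mul (μ := lam) (ν := lam)
    (fun u => cexp (((⟪ξ, g u⟫_ℝ : ℝ) : ℂ) * I))
    (fun u => (starRingEnd ℂ) (cexp (((⟪ξ, g u⟫_ℝ : ℝ) : ℂ) * I))), integral_conj]
  change _ = cf lam g ξ * (starRingEnd ℂ) (cf lam g ξ)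
  rw [Complex.mul_conj, Complex.normSq_eq_norm_sq]

theorem gauss_C (lam : Measure Ω) [IsFiniteMeasure lam] {g : Ω → ℂ} (hg : Measurable g)
    {b : ℝ} (hb : 0 < b) :
    ∫ ξ : ℂ, ((Real.exp (-b * ‖ξ‖ ^ 2) * ‖cf lam g ξ‖ ^ 2 : ℝ) : ℂ) =
      ∫ x : Ω × Ω, ((π / b * Real.exp (-(‖g x.1 - g x.2‖ ^ 2 / (4 * b))) : ℝ) : ℂ)
        ∂(lam.prod lam) := by
  have e1 : ∀ ξ : ℂ, ((Real.exp (-b * ‖ξ‖ ^ 2) * ‖cf lam g ξ‖ ^ 2 : ℝ) : ℂ) =
      ∫ x : Ω × Ω, cexp (-(b : ℂ) * ‖ξ‖ ^ 2 + I * ⟪g x.1 - g x.2, ξ⟫_ℝ) ∂(lam.prod lam) := by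
    intro ξ
    rw [Complex.ofReal_mul, cf_sq lam hg, ← integral_const_mul]
    congr 1
    funext x
    rw [Complex.ofReal_exp, ← Complex.exp_add, real_inner_comm]
    congr 1
    push_cast
    ring
  simp_rw [e1]
  have hint : Integrable (fun p : (ℂ) × (Ω × Ω) =>
      cexp (-(b : ℂ) * ‖p.1‖ ^ 2 + I * ⟪g p.2.1 - g p.2.2, p.1⟫_ℝ))
      ((volume : Measure ℂ).prod (lam.prod lam)) := by
    have h0 : Integrable (fun ξ : ℂ => Real.exp (-b * ‖ξ‖ ^ 2)) := by
      have h1 := GaussianFourier.integrable_cexp_neg_mul_sq_norm_add (V := ℂ) (b := (b : ℂ))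
        (by simpa using hb) 0 0
      have h2 := h1.norm
      refine h2.congr (Filter.Eventually.of_forall fun ξ => ?_)
      simp only [zero_mul, add_zero, Complex.norm_exp]
      congr 1
      rw [← Complex.ofReal_pow, ← Complex.ofReal_neg, Complex.re_ofReal_mul, Complex.ofReal_re]
    have h3 : Integrable (fun p : (ℂ) × (Ω × Ω) => Real.exp (-b * ‖p.1‖ ^ 2) * 1)
        ((volume : Measure ℂ).prod (lam.prod lam)) :=
      h0.mul_prod (integrable_const (1 : ℝ))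
    refine Integrable.mono' h3 ?_ (Filter.Eventually.of_forall fun p => ?_)
    · apply Measurable.aestronglyMeasurable
      apply Complex.measurable_exp.comp
      apply Measurable.add
      · fun_prop
      · apply Measurable.const_mul
        apply Complex.measurable_ofReal.comp
        apply Measurable.inner
        · exact ((hg.comp (measurable_fst.comp measurable_snd)).sub
            (hg.comp (measurable_snd.comp measurable_snd)))
        · exact measurable_fst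
    · rw [Complex.norm_exp, mul_one]
      apply Real.exp_le_exp.mpr
      rw [Complex.add_re, mul_comm I, Complex.re_ofReal_mul, Complex.I_re, mul_zero, add_zero,
        ← Complex.ofReal_pow, ← Complex.ofReal_neg, Complex.re_ofReal_mul, Complex.ofReal_re]
  rw [integral_integral_swap (f := fun (ξ : ℂ) (x : Ω × Ω) =>
      cexp (-(b : ℂ) * ‖ξ‖ ^ 2 + I * ⟪g x.1 - g x.2, ξ⟫_ℝ)) hint]
  congr 1
  funext x
  rw [GaussianFourier.integral_cexp_neg_mul_sq_norm_add (by simpa using hb) I (g x.1 - g x.2)]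
  have h5 : ((Module.finrank ℝ ℂ : ℂ) / 2) = 1 := by
    rw [Complex.finrank_real_complex]
    norm_num
  rw [h5, Complex.cpow_one, Complex.I_sq]
  push_cast
  congr 2
  ring

theorem gauss (lam : Measure Ω) [IsFiniteMeasure lam] {g : Ω → ℂ} (hg : Measurable g)
    {b : ℝ} (hb : 0 < b) :
    ∫ ξ : ℂ, Real.exp (-b * ‖ξ‖ ^ 2) * ‖cf lam g ξ‖ ^ 2 =
      π / b * ∫ x : Ω × Ω, Real.exp (-(‖g x.1 - g x.2‖ ^ 2 / (4 * b))) ∂(lam.prod lam) := by
  have h := gauss_C lam hg hb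
  have a1 := integral_complex_ofReal (μ := (volume : Measure ℂ))
    (f := fun ξ : ℂ => Real.exp (-b * ‖ξ‖ ^ 2) * ‖cf lam g ξ‖ ^ 2)
  have a2 := integral_complex_ofReal (μ := (lam.prod lam))
    (f := fun x : Ω × Ω => π / b * Real.exp (-(‖g x.1 - g x.2‖ ^ 2 / (4 * b))))
  have h1 := Complex.ofReal_injective (a1.symm.trans (h.trans a2))
  rw [h1, integral_const_mul]

end Pool.Agent.U151.SF
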