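import Pool.Agent.U151.SF.Corr

/-!
From correlation integrals of order `r ^ (7/4)` to Gaussian averages of order `r ^ (7/4)`.
-/

set_option autoImplicit false

namespace Pool.Agent.U151.SF

open MeasureTheory Complex
open scoped Real InnerProductSpace

theorem exp_sum (J : ℕ) : ∑ j ∈ Finset.range J, Real.exp (-4 ^ j) * 4 ^ (j + 1) ≤ 11 := by
  have h1 : ∀ j : ℕ, Real.exp (-4 ^ j) * 4 ^ (j + 1) ≤ 8 * (1 / 4 : ℝ) ^ j := by
    intro j
    have hy : (0:ℝ) < 4 ^ j := by positivity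
    have h2 := Real.quadratic_le_exp_of_nonneg hy.le
    have h3 : ((4:ℝ) ^ j) ^ 2 / 2 ≤ Real.exp (4 ^ j) := by linarith
    rw [Real.exp_neg, pow_succ, one_div, inv_pow]
    rw [inv_mul_le_iff₀ (Real.exp_pos _)]
    have h4 : (4:ℝ) ^ j * 4 = ((4:ℝ) ^ j) ^ 2 / 2 * (8 * ((4:ℝ) ^ j)⁻¹) := by
      field_simp
      ring
    rw [h4]
    exact mul_le_mul_of_nonneg_right h3 (by positivity)
  calc ∑ j ∈ Finset.range J, Real.exp (-4 ^ j) * 4 ^ (j + 1)
      ≤ ∑ j ∈ Finset.range J, 8 * (1 / 4 : ℝ) ^ j := Finset.sum_le_sum fun j _ => h1 j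
    _ ≤ ∑' j : ℕ, 8 * (1 / 4 : ℝ) ^ j := by
        apply Summable.sum_le_tsum
        · intro j _
          positivity
        · exact (summable_geometric_of_lt_one (by norm_num) (by norm_num)).mul_left _
    _ ≤ 11 := by
        rw [tsum_mul_left, tsum_geometric_of_lt_one (by norm_num) (by norm_num)]
        norm_num

theorem exists_J {L : ℝ} (hL : 1 ≤ L) : ∃ J : ℕ, 2 * L ≤ 4 ^ J ∧ (4:ℝ) ^ J ≤ 8 * L := by
  have hex : ∃ J : ℕ, 2 * L ≤ 4 ^ J := by
    obtain ⟨n, hn⟩ := pow_unbounded_of_one_lt (2 * L) (by norm_num : (1:ℝ) < 4)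
    exact ⟨n, hn.le⟩
  classical
  obtain ⟨J, hJ⟩ : ∃ J, J = Nat.find hex := ⟨_, rfl⟩
  have h1 : 2 * L ≤ 4 ^ J := hJ ▸ Nat.find_spec hex
  refine ⟨J, h1, ?_⟩
  rcases Nat.eq_zero_or_pos J with h0 | h0
  · rw [h0, pow_zero] at h1
    linarith
  · have h2 : ¬ 2 * L ≤ 4 ^ (J - 1) := Nat.find_min hex (by omega)
    have h3 : (4:ℝ) ^ J = 4 ^ (J - 1) * 4 := by
      rw [← pow_succ]
      congr 1
      omega
    rw [h3]
    linarith [not_le.mp h2]

theorem two_pow_le (j : ℕ) : ((2:ℝ) ^ (j + 1)) ^ (7/4 : ℝ) ≤ 4 ^ (j + 1) := by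
  have h1 : (1:ℝ) ≤ 2 ^ (j + 1) := one_le_pow₀ (by norm_num)
  calc ((2:ℝ) ^ (j + 1)) ^ (7/4 : ℝ) ≤ ((2:ℝ) ^ (j + 1)) ^ (2 : ℝ) :=
        Real.rpow_le_rpow_of_exponent_le h1 (by norm_num)
    _ = 4 ^ (j + 1) := by
        rw [Real.rpow_two, ← pow_mul, mul_comm (j + 1) 2, pow_mul]
        norm_num

variable {Ω : Type*} [MeasurableSpace Ω]

theorem ga_up (lam : Measure Ω) [IsFiniteMeasure lam] {g : Ω → ℂ} (hg : Measurable g)
    {T M B D r0 r : ℝ} (hT : 0 < T) (hM : lam.real Set.univ = M) (hM0 : 0 ≤ M) (hM1 : M ≤ 1)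
    (hB : 0 < B) (hD : 0 ≤ D)
    (hco : ∀ ρ : ℝ, 0 < ρ → ρ ≤ r0 → D * (ρ ^ (7/4 : ℝ) * Real.log (1 / ρ)) ≤ T * M →
      T * co lam g ρ ≤ B * ρ ^ (7/4 : ℝ) * M)
    (hr : 0 < r) (hL : 1 ≤ Real.log (1 / r)) (hr0 : 8 * Real.log (1 / r) * r ≤ r0)
    (h8 : 8 * D * (r ^ (7/4 : ℝ) * Real.log (1 / r) ^ 2) ≤ T * M)
    (hTr : T * r ^ (1/4 : ℝ) ≤ B) :
    T * ga lam g r ≤ 13 * B * r ^ (7/4 : ℝ) * M := by
  obtain ⟨L, hLe⟩ : ∃ L, L = Real.log (1 / r) := ⟨_, rfl⟩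
  rw [← hLe] at hL hr0 h8
  obtain ⟨J, hJ1, hJ2⟩ := exists_J hL
  have hr7 : 0 < r ^ (7/4 : ℝ) := Real.rpow_pos_of_pos hr _
  have hu := ga_upper lam hg hr J
  rw [hM] at hu
  -- the first term
  have c0 : T * co lam g r ≤ B * r ^ (7/4 : ℝ) * M := by
    apply hco r hr
    · calc r ≤ 8 * L * r := by nlinarith
        _ ≤ r0 := hr0
    · rw [← hLe]
      refine le_trans ?_ h8
      have : D * (r ^ (7/4 : ℝ) * L) ≤ D * (r ^ (7/4 : ℝ) * L ^ 2) := by
        apply mul_le_mul_of_nonneg_left _ hD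
        apply mul_le_mul_of_nonneg_left _ hr7.le
        nlinarith
      have h2 : 0 ≤ D * (r ^ (7/4 : ℝ) * L ^ 2) := by positivity
      linarith
  have cj : ∀ j ∈ Finset.range J, T * (Real.exp (-4 ^ j) * co lam g (2 ^ (j + 1) * r)) ≤
      B * r ^ (7/4 : ℝ) * M * (Real.exp (-4 ^ j) * 4 ^ (j + 1)) := by
    intro j hj
    have hj1 : j + 1 ≤ J := Finset.mem_range.mp hj
    have hp : (0:ℝ) < 2 ^ (j + 1) := by positivity
    have hp1 : (1:ℝ) ≤ 2 ^ (j + 1) := one_le_pow₀ (by norm_num)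
    have h4 : (4:ℝ) ^ (j + 1) ≤ 8 * L :=
      (pow_le_pow_right₀ (by norm_num) hj1).trans hJ2
    have h24 : (2:ℝ) ^ (j + 1) ≤ 4 ^ (j + 1) := pow_le_pow_left₀ (by norm_num) (by norm_num) _
    have hρ : 0 < 2 ^ (j + 1) * r := by positivity
    have h7 : (2 ^ (j + 1) * r) ^ (7/4 : ℝ) ≤ 4 ^ (j + 1) * r ^ (7/4 : ℝ) := by
      rw [Real.mul_rpow hp.le hr.le]
      exact mul_le_mul_of_nonneg_right (two_pow_le j) hr7.le
    have hlog : Real.log (1 / (2 ^ (j + 1) * r)) ≤ L := by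
      rw [hLe]
      apply Real.log_le_log (by positivity)
      apply one_div_le_one_div_of_le hr
      nlinarith
    have h := hco (2 ^ (j + 1) * r) hρ
      ((mul_le_mul_of_nonneg_right (h24.trans h4) hr.le).trans hr0) (by
        refine le_trans ?_ h8
        have h10 : D * ((2 ^ (j + 1) * r) ^ (7/4 : ℝ) * Real.log (1 / (2 ^ (j + 1) * r))) ≤
            D * ((8 * L * r ^ (7/4 : ℝ)) * L) := by
          apply mul_le_mul_of_nonneg_left _ hD
          calc (2 ^ (j + 1) * r) ^ (7/4 : ℝ) * Real.log (1 / (2 ^ (j + 1) * r))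
              ≤ (2 ^ (j + 1) * r) ^ (7/4 : ℝ) * L :=
                mul_le_mul_of_nonneg_left hlog (Real.rpow_nonneg hρ.le _)
            _ ≤ (8 * L * r ^ (7/4 : ℝ)) * L := by
                apply mul_le_mul_of_nonneg_right _ (by linarith)
                exact h7.trans (mul_le_mul_of_nonneg_right h4 hr7.le)
        refine h10.trans (le_of_eq ?_)
        ring)
    calc T * (Real.exp (-4 ^ j) * co lam g (2 ^ (j + 1) * r))
        = Real.exp (-4 ^ j) * (T * co lam g (2 ^ (j + 1) * r)) := by ring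
      _ ≤ Real.exp (-4 ^ j) * (B * (2 ^ (j + 1) * r) ^ (7/4 : ℝ) * M) :=
          mul_le_mul_of_nonneg_left h (Real.exp_pos _).le
      _ ≤ Real.exp (-4 ^ j) * (B * (4 ^ (j + 1) * r ^ (7/4 : ℝ)) * M) := by
          apply mul_le_mul_of_nonneg_left _ (Real.exp_pos _).le
          apply mul_le_mul_of_nonneg_right _ hM0
          exact mul_le_mul_of_nonneg_left h7 hB.le
      _ = _ := by ring
  have cs : T * ∑ j ∈ Finset.range J, Real.exp (-4 ^ j) * co lam g (2 ^ (j + 1) * r) ≤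
      11 * (B * r ^ (7/4 : ℝ) * M) := by
    rw [Finset.mul_sum]
    refine (Finset.sum_le_sum cj).trans ?_
    rw [← Finset.mul_sum, mul_comm]
    exact mul_le_mul_of_nonneg_right (exp_sum J) (by positivity)
  have cl : T * (Real.exp (-4 ^ J) * M ^ 2) ≤ B * r ^ (7/4 : ℝ) * M := by
    have e1 : Real.exp (-4 ^ J) ≤ r ^ (1/4 : ℝ) * r ^ (7/4 : ℝ) := by
      rw [← Real.rpow_add hr]
      norm_num
      calc Real.exp (-4 ^ J) ≤ Real.exp (-(2 * L)) := Real.exp_le_exp.mpr (by linarith)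
        _ = r ^ 2 := by
          rw [hLe, one_div, Real.log_inv]
          rw [show -(2 * -Real.log r) = Real.log r + Real.log r by ring, Real.exp_add,
            Real.exp_log hr, sq]
    calc T * (Real.exp (-4 ^ J) * M ^ 2) ≤ T * ((r ^ (1/4 : ℝ) * r ^ (7/4 : ℝ)) * M) := by
          apply mul_le_mul_of_nonneg_left _ hT.le
          apply mul_le_mul e1 _ (by positivity) (by positivity)
          nlinarith
      _ = (T * r ^ (1/4 : ℝ)) * (r ^ (7/4 : ℝ) * M) := by ring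
      _ ≤ B * (r ^ (7/4 : ℝ) * M) := mul_le_mul_of_nonneg_right hTr (by positivity)
      _ = _ := by ring
  calc T * ga lam g r ≤ T * (co lam g r +
      ∑ j ∈ Finset.range J, Real.exp (-4 ^ j) * co lam g (2 ^ (j + 1) * r) +
      Real.exp (-4 ^ J) * M ^ 2) := mul_le_mul_of_nonneg_left hu hT.le
    _ = T * co lam g r +
      T * ∑ j ∈ Finset.range J, Real.exp (-4 ^ j) * co lam g (2 ^ (j + 1) * r) +
      T * (Real.exp (-4 ^ J) * M ^ 2) := by ring
    _ ≤ 13 * B * r ^ (7/4 : ℝ) * M := by linarith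

end Pool.Agent.U151.SF
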