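import Pool.Agent.U151.SF.Asm

/-!
The two-sided bound of the squared Fourier transform over disks and annuli.
-/

set_option autoImplicit false

namespace Pool.Agent.U151.SF

open H984N MeasureTheory Filter Topology Complex
open scoped Real InnerProductSpace

/-- The squared Fourier transform integrated over a disk. -/
noncomputable def fb (p : X) (s t : unitInterval) (a : ℝ) : ℝ :=
  p.2 ^ 2 * ∫ ξ in Metric.closedBall (0:ℂ) a, ‖cf (la s t) p.1 ξ‖ ^ 2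

theorem scale_cond {D κ a m : ℝ} (hD : 0 < D) (hκ : 1 ≤ κ) (ha : 0 < a)
    (h : 8 * D * κ ^ (7/4 : ℝ) * (a ^ (-(7/4) : ℝ) * Real.log a ^ 2) ≤ m)
    {lam : ℝ} (hl1 : 1 ≤ lam) (hl2 : lam ≤ κ) (hlog : 0 ≤ Real.log (1 / (lam / a))) :
    8 * D * ((lam / a) ^ (7/4 : ℝ) * Real.log (1 / (lam / a)) ^ 2) ≤ m := by
  refine le_trans ?_ h
  have h1 : (lam / a) ^ (7/4 : ℝ) ≤ κ ^ (7/4 : ℝ) * a ^ (-(7/4) : ℝ) := by
    rw [Real.div_rpow (by linarith) ha.le, Real.rpow_neg ha.le, div_eq_mul_inv]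
    apply mul_le_mul_of_nonneg_right _ (by positivity)
    exact Real.rpow_le_rpow (by linarith) hl2 (by norm_num)
  have h2 : Real.log (1 / (lam / a)) ≤ Real.log a := by
    have hl : 0 < lam := by linarith
    apply Real.log_le_log (by positivity)
    rw [one_div_div]
    exact div_le_self ha.le hl1
  have h3 : Real.log (1 / (lam / a)) ^ 2 ≤ Real.log a ^ 2 := pow_le_pow_left₀ hlog h2 2
  have h4 : 0 ≤ κ ^ (7/4 : ℝ) * a ^ (-(7/4) : ℝ) := by positivity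
  calc 8 * D * ((lam / a) ^ (7/4 : ℝ) * Real.log (1 / (lam / a)) ^ 2)
      ≤ 8 * D * ((κ ^ (7/4 : ℝ) * a ^ (-(7/4) : ℝ)) * Real.log a ^ 2) := by
        apply mul_le_mul_of_nonneg_left _ (by positivity)
        exact mul_le_mul h1 h3 (by positivity) h4
    _ = _ := by ring

theorem ball_two {c D r1 κ : ℝ} (hc : 0 < c) (hD : 0 < D) (hκ2 : 2 ≤ κ)
    (hκ : 104 * D * Real.exp (-(3 / 16 * κ ^ 2)) ≤ Real.exp (-1) * c / 2)
    {p : X} (hp : 0 < p.2) (hco : CoOk c D r1 p) {a : ℝ} (ha : 0 < a)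
    (hs1 : Sm D r1 p.2 (1 / a)) (hs2 : Sm D r1 p.2 (κ / a)) (hs3 : Sm D r1 p.2 (κ / 2 / a))
    {s t : unitInterval} (h : s ≤ t)
    (hm : 8 * D * κ ^ (7/4 : ℝ) * (a ^ (-(7/4) : ℝ) * Real.log a ^ 2) ≤ p.2 * ((t:ℝ) - s)) :
    2 * π * Real.exp (-1) * c * κ ^ (-(1/4) : ℝ) * a ^ (1/4 : ℝ) * (p.2 * ((t:ℝ) - s)) ≤
      fb p s t a ∧
    fb p s t a ≤ 208 * π * D * a ^ (1/4 : ℝ) * (p.2 * ((t:ℝ) - s)) := by
  have h' : (s:ℝ) ≤ t := h
  have hts : 0 ≤ (t:ℝ) - s := by linarith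
  have hπ := Real.pi_pos
  have hg : Measurable (p.1 : unitInterval → ℂ) := p.1.continuous.measurable
  have hκ0 : 0 < κ := by linarith
  constructor
  · have hr : 0 < κ / a := by positivity
    have hlow := low_one hD hco h hs2 (scale_cond hD (by linarith) ha hm (by linarith) le_rfl
      (by linarith [hs2.2.1]))
    have hlow' := hlow.resolve_right (by linarith)
    have hup := up_one hD hp hco h hs3 (scale_cond hD (by linarith) ha hm (by linarith)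
      (by linarith) (by linarith [hs3.2.1]))
    have hb := ball_lower (la s t) hg hr ha.le
    have hra : κ / a * a = κ := by field_simp
    rw [hra, show κ / a / 2 = κ / 2 / a by ring] at hb
    obtain ⟨E, hE⟩ : ∃ E, E = Real.exp (-(3 / 16 * κ ^ 2)) := ⟨_, rfl⟩
    rw [← hE] at hb hκ
    have hE0 : 0 ≤ E := hE ▸ (Real.exp_pos _).le
    have h74 : (κ / 2 / a) ^ (7/4 : ℝ) ≤ (κ / a) ^ (7/4 : ℝ) := by
      apply Real.rpow_le_rpow (by positivity) _ (by norm_num)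
      apply div_le_div_of_nonneg_right _ ha.le
      linarith
    have hpow : 0 < (κ / a) ^ (7/4 : ℝ) := Real.rpow_pos_of_pos hr _
    have hup' : p.2 * ga (la s t) p.1 (κ / 2 / a) ≤ 26 * D * (κ / a) ^ (7/4 : ℝ) * ((t:ℝ) - s) := by
      refine hup.trans ?_
      apply mul_le_mul_of_nonneg_right _ hts
      exact mul_le_mul_of_nonneg_left h74 (by positivity)
    have hfrac : 0 < 4 * π / (κ / a) ^ 2 := by positivity
    have key : (4 * π / (κ / a) ^ 2) * (Real.exp (-1) * c / 2 * (κ / a) ^ (7/4 : ℝ) *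
        ((t:ℝ) - s)) ≤ (4 * π / (κ / a) ^ 2) * (p.2 * ga (la s t) p.1 (κ / a) -
          4 * E * (p.2 * ga (la s t) p.1 (κ / 2 / a))) := by
      apply mul_le_mul_of_nonneg_left _ hfrac.le
      have e1 : 4 * E * (p.2 * ga (la s t) p.1 (κ / 2 / a)) ≤
          4 * E * (26 * D * (κ / a) ^ (7/4 : ℝ) * ((t:ℝ) - s)) :=
        mul_le_mul_of_nonneg_left hup' (by positivity)
      have e2 : 4 * E * (26 * D * (κ / a) ^ (7/4 : ℝ) * ((t:ℝ) - s)) =
          (104 * D * E) * ((κ / a) ^ (7/4 : ℝ) * ((t:ℝ) - s)) := by ring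
      have e3 : (104 * D * E) * ((κ / a) ^ (7/4 : ℝ) * ((t:ℝ) - s)) ≤
          (Real.exp (-1) * c / 2) * ((κ / a) ^ (7/4 : ℝ) * ((t:ℝ) - s)) :=
        mul_le_mul_of_nonneg_right hκ (by positivity)
      nlinarith
    have hq : (κ / a) ^ (7/4 : ℝ) = (κ / a) ^ (-(1/4) : ℝ) * (κ / a) ^ 2 := by
      rw [← r74 hr]
      field_simp
    have hq2 : (κ / a) ^ (-(1/4) : ℝ) = κ ^ (-(1/4) : ℝ) * a ^ (1/4 : ℝ) := by
      rw [Real.div_rpow hκ0.le ha.le, Real.rpow_neg ha.le, div_inv_eq_mul]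
    have lhs : (4 * π / (κ / a) ^ 2) * (Real.exp (-1) * c / 2 * (κ / a) ^ (7/4 : ℝ) *
        ((t:ℝ) - s)) = 2 * π * Real.exp (-1) * c * κ ^ (-(1/4) : ℝ) * a ^ (1/4 : ℝ) *
          ((t:ℝ) - s) := by
      rw [hq, hq2]
      field_simp
      ring
    rw [lhs] at key
    have key2 : p.2 * (2 * π * Real.exp (-1) * c * κ ^ (-(1/4) : ℝ) * a ^ (1/4 : ℝ) *
          ((t:ℝ) - s)) ≤ p.2 * ((4 * π / (κ / a) ^ 2) * (p.2 * ga (la s t) p.1 (κ / a) -
          4 * E * (p.2 * ga (la s t) p.1 (κ / 2 / a)))) := mul_le_mul_of_nonneg_left key hp.le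
    have hb2 := mul_le_mul_of_nonneg_left hb (sq_nonneg p.2)
    calc 2 * π * Real.exp (-1) * c * κ ^ (-(1/4) : ℝ) * a ^ (1/4 : ℝ) * (p.2 * ((t:ℝ) - s))
        = p.2 * (2 * π * Real.exp (-1) * c * κ ^ (-(1/4) : ℝ) * a ^ (1/4 : ℝ) *
          ((t:ℝ) - s)) := by ring
      _ ≤ _ := key2
      _ = p.2 ^ 2 * (4 * π / (κ / a) ^ 2 * ga (la s t) p.1 (κ / a) -
          E * (16 * π / (κ / a) ^ 2 * ga (la s t) p.1 (κ / 2 / a))) := by ring
      _ ≤ fb p s t a := hb2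
  · have hr : 0 < 1 / a := by positivity
    have hup := up_one hD hp hco h hs1 (scale_cond hD (by linarith) ha hm le_rfl
      (by linarith) (by linarith [hs1.2.1]))
    have hb := ball_upper (la s t) hg (a := a) hr
    have h1 : (1 / a) ^ 2 * a ^ 2 / 4 = 1 / 4 := by field_simp
    rw [h1] at hb
    have he : Real.exp (1 / 4) ≤ 2 := by
      have h2 : (1:ℝ) / 4 ≤ Real.log 2 := by
        have := Real.log_two_gt_d9
        linarith
      calc Real.exp (1 / 4) ≤ Real.exp (Real.log 2) := Real.exp_le_exp.mpr h2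
        _ = 2 := Real.exp_log (by norm_num)
    have hga : 0 ≤ ga (la s t) p.1 (1 / a) := integral_nonneg fun x => (Real.exp_pos _).le
    have hb' : ∫ ξ in Metric.closedBall (0:ℂ) a, ‖cf (la s t) p.1 ξ‖ ^ 2 ≤
        2 * (4 * π / (1 / a) ^ 2 * ga (la s t) p.1 (1 / a)) := by
      refine hb.trans (mul_le_mul_of_nonneg_right he (by positivity))
    have hq : (1 / a) ^ (7/4 : ℝ) = (1 / a) ^ (-(1/4) : ℝ) * (1 / a) ^ 2 := by
      rw [← r74 hr]
      field_simp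
    have hq2 : (1 / a) ^ (-(1/4) : ℝ) = a ^ (1/4 : ℝ) := by
      rw [one_div, Real.inv_rpow ha.le, Real.rpow_neg ha.le, inv_inv]
    unfold fb
    calc p.2 ^ 2 * ∫ ξ in Metric.closedBall (0:ℂ) a, ‖cf (la s t) p.1 ξ‖ ^ 2
        ≤ p.2 ^ 2 * (2 * (4 * π / (1 / a) ^ 2 * ga (la s t) p.1 (1 / a))) :=
          mul_le_mul_of_nonneg_left hb' (sq_nonneg _)
      _ = (p.2 * (8 * π / (1 / a) ^ 2)) * (p.2 * ga (la s t) p.1 (1 / a)) := by ring
      _ ≤ (p.2 * (8 * π / (1 / a) ^ 2)) * (26 * D * (1 / a) ^ (7/4 : ℝ) * ((t:ℝ) - s)) :=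
          mul_le_mul_of_nonneg_left hup (by positivity)
      _ = 208 * π * D * a ^ (1/4 : ℝ) * (p.2 * ((t:ℝ) - s)) := by
          rw [hq, hq2]
          field_simp
          ring

theorem exists_kappa {c D : ℝ} (hc : 0 < c) (hD : 0 < D) : ∃ κ : ℝ, 2 ≤ κ ∧
    104 * D * Real.exp (-(3 / 16 * κ ^ 2)) ≤ Real.exp (-1) * c / 2 := by
  have h1 : Tendsto (fun κ : ℝ => Real.exp (-(3 / 16 * κ ^ 2))) atTop (𝓝 0) := by
    apply Real.tendsto_exp_atBot.comp
    apply tendsto_neg_atTop_atBot.comp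
    exact (tendsto_pow_atTop two_ne_zero).const_mul_atTop (by norm_num)
  have h2 := h1.const_mul (104 * D)
  rw [mul_zero] at h2
  have h3 : 0 < Real.exp (-1) * c / 2 := by positivity
  obtain ⟨κ, h4, h5⟩ := ((eventually_ge_atTop (2:ℝ)).and (h2.eventually (ge_mem_nhds h3))).exists
  exact ⟨κ, h4, h5⟩

/-- The two-sided bound on all pieces for all large radii. -/
def FbOk (c C : ℝ) (p : X) (s t : unitInterval) (a : ℝ) : Prop :=
  c * a ^ (1/4 : ℝ) * (p.2 * ((t:ℝ) - s)) ≤ fb p s t a ∧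
  fb p s t a ≤ C * a ^ (1/4 : ℝ) * (p.2 * ((t:ℝ) - s))

theorem main_det {c D : ℝ} (hc : 0 < c) (hD : 0 < D) : ∃ c' C' : ℝ, 0 < c' ∧ 0 < C' ∧
    ∀ p : X, 0 < p.2 → (∃ r1 : ℝ, 0 < r1 ∧ CoOk c D r1 p) →
      ∀ᶠ a : ℝ in atTop, ∀ s t : unitInterval, s ≤ t →
        C' * (a ^ (-(7/4) : ℝ) * Real.log a ^ 2) ≤ p.2 * ((t:ℝ) - s) → FbOk c' C' p s t a := by
  obtain ⟨κ, hκ2, hκ⟩ := exists_kappa hc hD
  have hκ0 : 0 < κ := by linarith
  refine ⟨2 * π * Real.exp (-1) * c * κ ^ (-(1/4) : ℝ),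
    max (208 * π * D) (8 * D * κ ^ (7/4 : ℝ)), by positivity, lt_max_of_lt_left (by positivity),
    fun p hp hr => ?_⟩
  obtain ⟨r1, hr1, hco⟩ := hr
  have hS := ev_sm (T := p.2) hD hr1
  have ht : ∀ lam : ℝ, 0 < lam → Tendsto (fun a : ℝ => lam / a) atTop (𝓝[>] 0) := by
    intro lam hl
    refine tendsto_nhdsWithin_iff.mpr ⟨tendsto_const_nhds.div_atTop tendsto_id, ?_⟩
    filter_upwards [eventually_gt_atTop (0:ℝ)] with a ha
    exact div_pos hl ha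
  filter_upwards [eventually_gt_atTop (0:ℝ), (ht 1 one_pos).eventually hS,
    (ht κ hκ0).eventually hS, (ht (κ / 2) (by positivity)).eventually hS] with a ha h1 h2 h3 s t
    hst hm
  have hst' : (s:ℝ) ≤ t := hst
  have hn : 0 ≤ a ^ (-(7/4) : ℝ) * Real.log a ^ 2 := by positivity
  obtain ⟨g1, g2⟩ := ball_two hc hD hκ2 hκ hp hco ha h1 h2 h3 hst
    ((mul_le_mul_of_nonneg_right (le_max_right _ _) hn).trans hm)
  refine ⟨g1, g2.trans ?_⟩
  have hts : 0 ≤ p.2 * ((t:ℝ) - s) := mul_nonneg hp.le (by linarith)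
  apply mul_le_mul_of_nonneg_right _ hts
  exact mul_le_mul_of_nonneg_right (le_max_left _ _) (by positivity)

end Pool.Agent.U151.SF
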